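import Pool.Agent.W26.CT.Asm2

/-!
The families.
-/

set_option autoImplicit false
open Finset
open scoped ComplexConjugate TensorProduct

namespace Pool.Agent.W26.CT

section
variable {E : Fin 2 → Type} [∀ i, NormedAddCommGroup (E i)] [∀ i, NormedSpace ℝ (E i)]
variable {A B : Type} [Fintype A] [Fintype B] [DecidableEq A] [DecidableEq B]

/-- tensor of a matrix -/
noncomputable def tm (J0 : (A → ℝ) →ₗ[ℝ] E 0) (J1 : (B → ℝ) →ₗ[ℝ] E 1) (m : A → B → ℝ) :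
    PiTensorProduct ℝ E :=
  ∑ a, ∑ b, m a b • tp (J0 (Pi.single a 1)) (J1 (Pi.single b 1))

lemma tm_rank_one (J0 : (A → ℝ) →ₗ[ℝ] E 0) (J1 : (B → ℝ) →ₗ[ℝ] E 1) (f : A → ℝ) (h : B → ℝ) :
    tm J0 J1 (fun a b => f a * h b) = tp (J0 f) (J1 h) := by
  have hf : f = ∑ a, f a • (Pi.single a 1 : A → ℝ) := by
    funext k; simp [Finset.sum_apply, Pi.single_apply]
  have hh : h = ∑ b, h b • (Pi.single b 1 : B → ℝ) := by
    funext k; simp [Finset.sum_apply, Pi.single_apply]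
  have h1 : J0 f = ∑ a, f a • J0 (Pi.single a 1) := by
    conv_lhs => rw [hf]
    rw [map_sum]
    exact Finset.sum_congr rfl fun a _ => map_smul _ _ _
  have h2 : J1 h = ∑ b, h b • J1 (Pi.single b 1) := by
    conv_lhs => rw [hh]
    rw [map_sum]
    exact Finset.sum_congr rfl fun a _ => map_smul _ _ _
  have h3 : tp (∑ a, f a • J0 (Pi.single a 1)) (∑ b, h b • J1 (Pi.single b 1))
      = ∑ a, tp (f a • J0 (Pi.single a 1)) (∑ b, h b • J1 (Pi.single b 1)) := by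
    rw [map_sum tp, LinearMap.sum_apply]
  rw [tm, h1, h2, h3]
  refine Finset.sum_congr rfl fun a _ => ?_
  rw [map_sum]
  refine Finset.sum_congr rfl fun b _ => ?_
  rw [map_smul, map_smul, LinearMap.smul_apply, smul_smul, mul_comm]

lemma map_tm (J0 : (A → ℝ) →ₗ[ℝ] E 0) (J1 : (B → ℝ) →ₗ[ℝ] E 1) (m : A → B → ℝ)
    (L : PiTensorProduct ℝ E →ₗ[ℝ] ℝ) :
    L (tm J0 J1 m) = ∑ a, ∑ b, m a b * L (tp (J0 (Pi.single a 1)) (J1 (Pi.single b 1))) := by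
  simp only [tm, map_sum, map_smul, smul_eq_mul]

/-- upper bound for signed sums -/
lemma upper {n : ℕ} {J0 : ((Fin n → Fin 4) → ℝ) →ₗ[ℝ] E 0} {J1 : ((Fin n → Bool) → ℝ) →ₗ[ℝ] E 1}
    (hJ0 : ∀ a, ‖J0 a‖ ≤ (∑ k, |a k| ^ (4 / 3 : ℝ)) ^ (1 / (4 / 3 : ℝ)))
    (hJ1 : ∀ a, ‖J1 a‖ ≤ (∑ k, |a k| ^ (2 : ℝ)) ^ (1 / (2 : ℝ)))
    {x : Fin 3 × Bool → Bool → ℂ} {y : Fin 3 × Bool → Fin 4 → ℂ}
    {w : ℂ → Fin 3 × Bool → ℝ} {ρ ψ : Fin 4 → Bool → ℂ}
    (hw : ∀ z, ‖z‖ ≤ 1 / 6 → ∀ s, 0 ≤ w z s) (hw1 : ∀ z, ∑ s, w z s = 1)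
    (hid : ∀ z a b, ∑ s, ((w z s : ℝ) : ℂ) * (y s a * x s b) = ρ a b + z * ψ a b)
    (hx : ∀ s, ∑ b, ‖x s b‖ ^ (2 : ℝ) = 1) (hy : ∀ s, ∑ a, ‖y s a‖ ^ (4 / 3 : ℝ) = 1)
    (c : Fin n → ℂ) (hc : ∀ j, ‖c j‖ ≤ 1) (ε : Fin n → ℝ) (hε : ∀ j, |ε j| ≤ 1) :
    ‖∑ j, ε j • tm J0 J1 (fun a b => (c j * ph ρ ψ j a b).re)‖ ≤ 24 := by
  set U := ∑ j, ε j • tm J0 J1 (fun a b => (c j * ph ρ ψ j a b).re) with hU
  obtain ⟨g, hg1, hg2⟩ := W782.CT.hb E U
  set G : (Fin n → Fin 4) → (Fin n → Bool) → ℝ :=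
    fun a b => g (tp (J0 (Pi.single a 1)) (J1 (Pi.single b 1))) with hG
  have hreal : ∀ (f : (Fin n → Fin 4) → ℝ) (h : (Fin n → Bool) → ℝ),
      |∑ a, ∑ b, G a b * (f a * h b)| ≤ (∑ a, |f a| ^ (4 / 3 : ℝ)) ^ (1 / (4 / 3 : ℝ)) *
        (∑ b, |h b| ^ (2 : ℝ)) ^ (1 / (2 : ℝ)) := by
    intro f h
    have h1 : ∑ a, ∑ b, G a b * (f a * h b) = g (tp (J0 f) (J1 h)) := by
      rw [← tm_rank_one, map_tm]
      refine Finset.sum_congr rfl fun a _ => Finset.sum_congr rfl fun b _ => by rw [mul_comm]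
    rw [h1]
    refine (hg2 _).trans ((norm_tp _ _).trans ?_)
    exact mul_le_mul (hJ0 f) (hJ1 h) (norm_nonneg _) (by positivity)
  have hcomp := complexify G hreal
  have hps : ∀ z : Fin n → ℂ, (∀ j, ‖z j‖ ≤ 1 / 6) →
      ‖∑ a, ∑ b, ((G a b : ℝ) : ℂ) * ∏ j, (ρ (a j) (b j) + z j * ψ (a j) (b j))‖ ≤ 4 :=
    fun z hz => prod_state (P := 4 / 3) (Q := 2) hw hw1 hid hx hy
      (fun a b => ((G a b : ℝ) : ℂ)) 4 hcomp z hz
  have hl := level_one (K := 4) (t := 1 / 6) (by norm_num) (fun a b => ((G a b : ℝ) : ℂ)) hps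
    (fun j => (ε j : ℂ) * c j) (fun j => by
      rw [norm_mul, Complex.norm_real, Real.norm_eq_abs]
      exact mul_le_one₀ (hε j) (norm_nonneg _) (hc j))
  have hgU : g U = (∑ j, (ε j : ℂ) * c j * ∑ a, ∑ b, ((G a b : ℝ) : ℂ) * ph ρ ψ j a b).re := by
    rw [hU, map_sum, Complex.re_sum]
    refine Finset.sum_congr rfl fun j _ => ?_
    rw [map_smul, map_tm, smul_eq_mul, mul_assoc, Complex.re_ofReal_mul]
    congr 1
    rw [Finset.mul_sum, Complex.re_sum]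
    refine Finset.sum_congr rfl fun a _ => ?_
    rw [Finset.mul_sum, Complex.re_sum]
    refine Finset.sum_congr rfl fun b _ => ?_
    rw [show c j * (((G a b : ℝ) : ℂ) * ph ρ ψ j a b) = ((G a b : ℝ) : ℂ) * (c j * ph ρ ψ j a b)
      by ring, Complex.re_ofReal_mul, mul_comm]
  have h3 : ‖U‖ = g U := hg1.symm
  rw [h3, hgU]
  refine (Complex.re_le_norm _).trans (hl.trans ?_)
  norm_num

lemma sum_prod_pair {ι α β : Type} [Fintype ι] [DecidableEq ι] [Fintype α] [Fintype β]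
    (F : ι → α → β → ℂ) :
    ∑ a : ι → α, ∑ b : ι → β, ∏ k, F k (a k) (b k) = ∏ k, ∑ a, ∑ b, F k a b := by
  have h1 : ∀ a : ι → α, ∑ b : ι → β, ∏ k, F k (a k) (b k) = ∏ k, ∑ b, F k (a k) b := fun a => by
    rw [Finset.prod_univ_sum, Fintype.piFinset_univ]
  simp_rw [h1]
  rw [Finset.prod_univ_sum, Fintype.piFinset_univ]

/-- lower bound -/
lemma lower {n : ℕ} {J0 : ((Fin n → Fin 4) → ℝ) →ₗ[ℝ] E 0} {J1 : ((Fin n → Bool) → ℝ) →ₗ[ℝ] E 1}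
    {R0 : E 0 →ₗ[ℝ] ((Fin n → Fin 4) → ℝ)} {R1 : E 1 →ₗ[ℝ] ((Fin n → Bool) → ℝ)}
    (h0 : ∀ a, R0 (J0 a) = a) (h1 : ∀ a, R1 (J1 a) = a)
    (hR0 : ∀ f, (∑ k, |R0 f k| ^ (4 / 3 : ℝ)) ^ (1 / (4 / 3 : ℝ)) ≤ ‖f‖)
    (hR1 : ∀ f, (∑ k, |R1 f k| ^ (2 : ℝ)) ^ (1 / (2 : ℝ)) ≤ ‖f‖)
    {ρ ψ T : Fin 4 → Bool → ℂ}
    (hT : ∀ x : Bool → ℂ, ∑ a, ‖∑ b, T a b * x b‖ ^ 4 = (∑ b, ‖x b‖ ^ 2) ^ 2)
    (hTρ : ∑ a, ∑ b, T a b * ρ a b = 1) (j : Fin n) :
    ∃ c : ℂ, ‖c‖ ≤ 1 ∧ (∑ a, ∑ b, ‖ψ a b‖ ^ 2) / 2 ≤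
      (1 + ∑ a, (∑ b, ‖ψ a b‖ ^ 2) ^ 2) ^ (1 / 4 : ℝ) *
        ‖tm J0 J1 (fun a b => (c * ph ρ ψ j a b).re)‖ := by
  set cS : ℝ := 1 + ∑ a, (∑ b, ‖ψ a b‖ ^ 2) ^ 2 with hcS
  have hcS0 : 0 ≤ cS := by positivity
  set κ : ℝ := ∑ a, ∑ b, ‖ψ a b‖ ^ 2 with hκ
  have hκ0 : 0 ≤ κ := by positivity
  set Tk : Fin n → Fin 4 → Bool → ℂ := fun k => if k = j then (fun a b => conj (ψ a b)) else T
    with hTk
  set Θ : (Fin n → Fin 4) → (Fin n → Bool) → ℂ := fun a b => ∏ k, Tk k (a k) (b k) with hΘ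
  have hbound : ∀ x : (Fin n → Bool) → ℂ, ∑ a, ‖∑ b, Θ a b * x b‖ ^ 4
      ≤ cS * (∑ b, ‖x b‖ ^ 2) ^ 2 := by
    have := W465.CT.mink n Tk (fun k => if k = j then cS else 1)
      (fun k => by split_ifs; exacts [hcS0, zero_le_one]) (fun k x => by
        by_cases hk : k = j
        · simp only [hTk, hk, if_true]
          have h2 : ∀ a : Fin 4, ‖∑ b, conj (ψ a b) * x b‖ ^ 4
              ≤ (∑ b, ‖ψ a b‖ ^ 2) ^ 2 * (∑ b, ‖x b‖ ^ 2) ^ 2 := by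
            intro a
            have h3 : ‖∑ b, conj (ψ a b) * x b‖ ≤ ∑ b, ‖ψ a b‖ * ‖x b‖ :=
              norm_sum_le_of_le _ fun b _ => by rw [norm_mul, RCLike.norm_conj]
            have h4 := Finset.sum_mul_sq_le_sq_mul_sq univ (fun b => ‖ψ a b‖) (fun b => ‖x b‖)
            calc ‖∑ b, conj (ψ a b) * x b‖ ^ 4 ≤ (∑ b, ‖ψ a b‖ * ‖x b‖) ^ 4 := by gcongr
              _ = ((∑ b, ‖ψ a b‖ * ‖x b‖) ^ 2) ^ 2 := by ring
              _ ≤ ((∑ b, ‖ψ a b‖ ^ 2) * ∑ b, ‖x b‖ ^ 2) ^ 2 := by gcongr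
              _ = _ := by ring
          calc ∑ a, ‖∑ b, conj (ψ a b) * x b‖ ^ 4
              ≤ ∑ a, (∑ b, ‖ψ a b‖ ^ 2) ^ 2 * (∑ b, ‖x b‖ ^ 2) ^ 2 :=
                Finset.sum_le_sum fun a _ => h2 a
            _ = (∑ a, (∑ b, ‖ψ a b‖ ^ 2) ^ 2) * (∑ b, ‖x b‖ ^ 2) ^ 2 := by rw [Finset.sum_mul]
            _ ≤ cS * (∑ b, ‖x b‖ ^ 2) ^ 2 := by
              refine mul_le_mul_of_nonneg_right ?_ (by positivity)
              rw [hcS]; linarith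
        · simp only [hTk, hk, if_false, one_mul]
          exact (hT x).le)
    intro x
    refine (this x).trans (le_of_eq ?_)
    congr 1
    rw [Finset.prod_ite_eq' univ j (fun _ => cS)]
    simp
  have hpair : ∑ a, ∑ b, Θ a b * ph ρ ψ j a b = (κ : ℂ) := by
    have e1 : ∀ a b, Θ a b * ph ρ ψ j a b
        = ∏ k, (Tk k (a k) (b k) * (if k = j then ψ else ρ) (a k) (b k)) := by
      intro a b
      rw [Finset.prod_mul_distrib]
      congr 1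
      rw [ph, ← Finset.prod_erase_mul univ _ (mem_univ j), if_pos rfl]
      congr 1
      refine Finset.prod_congr rfl fun k hk => ?_
      rw [if_neg (Finset.ne_of_mem_erase hk)]
    simp_rw [e1]
    rw [sum_prod_pair (fun k a b => Tk k a b * (if k = j then ψ else ρ) a b)]
    rw [← Finset.prod_erase_mul univ _ (mem_univ j)]
    rw [Finset.prod_eq_one (s := univ.erase j)]
    · rw [one_mul, hκ]
      push_cast
      refine Finset.sum_congr rfl fun a _ => Finset.sum_congr rfl fun b _ => ?_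
      simp only [hTk, if_true]
      rw [← Complex.normSq_eq_conj_mul_self, Complex.normSq_eq_norm_sq]
      push_cast
      rfl
    · intro k hk
      have hk' := Finset.ne_of_mem_erase hk
      simp only [hTk, hk', if_false]
      exact hTρ
  -- real functionals
  have hfun : ∀ (lam : ℂ), ‖lam‖ ≤ 1 → ∀ m : (Fin n → Fin 4) → (Fin n → Bool) → ℝ,
      |∑ a, ∑ b, m a b * (lam * Θ a b).re| ≤ cS ^ (1 / 4 : ℝ) * ‖tm J0 J1 m‖ := by
    intro lam hlam m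
    obtain ⟨L, hL1, hL2⟩ := eval_bound (E := E)
      (LinearMap.mk₂ ℝ (fun f g => ∑ a, ∑ b, (lam * Θ a b).re * (R0 f a * R1 g b))
        (fun f f' g => by
          simp only [map_add, Pi.add_apply, add_mul, mul_add, Finset.sum_add_distrib])
        (fun c f g => by
          simp only [map_smul, Pi.smul_apply, smul_eq_mul, Finset.mul_sum]
          exact Finset.sum_congr rfl fun a _ => Finset.sum_congr rfl fun b _ => by ring)
        (fun f g g' => by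
          simp only [map_add, Pi.add_apply, mul_add, Finset.sum_add_distrib])
        (fun c f g => by
          simp only [map_smul, Pi.smul_apply, smul_eq_mul, Finset.mul_sum]
          exact Finset.sum_congr rfl fun a _ => Finset.sum_congr rfl fun b _ => by ring))
      (cS ^ (1 / 4 : ℝ)) (fun f g => by
        rw [LinearMap.mk₂_apply]
        have e2 : ∑ a, ∑ b, (lam * Θ a b).re * (R0 f a * R1 g b)
            = (lam * ∑ a, ∑ b, Θ a b * ((R0 f a : ℂ) * (R1 g b : ℂ))).re := by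
          rw [Finset.mul_sum, Complex.re_sum]
          refine Finset.sum_congr rfl fun a _ => ?_
          rw [Finset.mul_sum, Complex.re_sum]
          refine Finset.sum_congr rfl fun b _ => ?_
          have e5 : lam * (Θ a b * ((R0 f a : ℂ) * (R1 g b : ℂ)))
              = (lam * Θ a b) * ((R0 f a * R1 g b : ℝ) : ℂ) := by push_cast; ring
          rw [e5, Complex.re_mul_ofReal]
        rw [e2]
        refine (Complex.abs_re_le_norm _).trans ?_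
        rw [norm_mul]
        refine (mul_le_of_le_one_left (norm_nonneg _) hlam).trans ?_
        refine (holder_bound Θ hcS0 hbound (R0 f) (R1 g)).trans ?_
        refine mul_le_mul_of_nonneg_left ?_ (by positivity)
        exact mul_le_mul (hR0 f) (hR1 g) (by positivity) (norm_nonneg _)) (by positivity)
    have e3 : L (tm J0 J1 m) = ∑ a, ∑ b, m a b * (lam * Θ a b).re := by
      rw [map_tm]
      refine Finset.sum_congr rfl fun a _ => Finset.sum_congr rfl fun b _ => ?_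
      congr 1
      rw [hL1, LinearMap.mk₂_apply, h0, h1]
      rw [Finset.sum_eq_single a, Finset.sum_eq_single b]
      · simp
      · intro b' _ hb'; simp [Pi.single_eq_of_ne hb']
      · intro h; exact absurd (mem_univ _) h
      · intro a' _ ha'
        refine Finset.sum_eq_zero fun b' _ => ?_
        simp [Pi.single_eq_of_ne ha']
      · intro h; exact absurd (mem_univ _) h
    rw [← e3]
    exact hL2 _
  -- choice of the phase
  have hcase : ∀ m : (Fin n → Fin 4) → (Fin n → Bool) → ℝ,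
      ‖∑ a, ∑ b, Θ a b * ((m a b : ℝ) : ℂ)‖ ≤ cS ^ (1 / 4 : ℝ) * ‖tm J0 J1 m‖ := by
    intro m
    obtain ⟨lam, hlam1, hlam2⟩ := RCLike.exists_norm_eq_mul_self
      (∑ a, ∑ b, Θ a b * ((m a b : ℝ) : ℂ))
    have h5 := hfun lam hlam1.le m
    have h6 : ∑ a, ∑ b, m a b * (lam * Θ a b).re
        = (lam * ∑ a, ∑ b, Θ a b * ((m a b : ℝ) : ℂ)).re := by
      rw [Finset.mul_sum, Complex.re_sum]
      refine Finset.sum_congr rfl fun a _ => ?_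
      rw [Finset.mul_sum, Complex.re_sum]
      refine Finset.sum_congr rfl fun b _ => ?_
      rw [← mul_assoc, Complex.re_mul_ofReal, mul_comm]
    rw [h6, ← hlam2] at h5
    refine le_trans ?_ h5
    refine le_trans (le_of_eq ?_) (le_abs_self _)
    exact (Complex.ofReal_re _).symm
  have hsplit : (κ : ℂ) = (∑ a, ∑ b, Θ a b * (((ph ρ ψ j a b).re : ℝ) : ℂ))
      + Complex.I * ∑ a, ∑ b, Θ a b * (((ph ρ ψ j a b).im : ℝ) : ℂ) := by
    rw [← hpair, Finset.mul_sum, ← Finset.sum_add_distrib]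
    refine Finset.sum_congr rfl fun a _ => ?_
    rw [Finset.mul_sum, ← Finset.sum_add_distrib]
    refine Finset.sum_congr rfl fun b _ => ?_
    conv_lhs => rw [← Complex.re_add_im (ph ρ ψ j a b)]
    ring
  have hnorm : κ ≤ ‖∑ a, ∑ b, Θ a b * (((ph ρ ψ j a b).re : ℝ) : ℂ)‖
      + ‖∑ a, ∑ b, Θ a b * (((ph ρ ψ j a b).im : ℝ) : ℂ)‖ := by
    have h7 := norm_add_le (∑ a, ∑ b, Θ a b * (((ph ρ ψ j a b).re : ℝ) : ℂ))
      (Complex.I * ∑ a, ∑ b, Θ a b * (((ph ρ ψ j a b).im : ℝ) : ℂ))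
    rw [← hsplit, Complex.norm_real, Real.norm_of_nonneg hκ0, norm_mul, Complex.norm_I,
      one_mul] at h7
    exact h7
  rcases le_or_gt (κ / 2) ‖∑ a, ∑ b, Θ a b * (((ph ρ ψ j a b).re : ℝ) : ℂ)‖ with h8 | h8
  · refine ⟨1, by simp, ?_⟩
    simp only [one_mul]
    exact h8.trans (hcase _)
  · refine ⟨-Complex.I, by simp, ?_⟩
    have h9 : κ / 2 ≤ ‖∑ a, ∑ b, Θ a b * (((ph ρ ψ j a b).im : ℝ) : ℂ)‖ := by linarith
    have h10 : (fun a b => (-Complex.I * ph ρ ψ j a b).re) = fun a b => (ph ρ ψ j a b).im := by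
      funext a b
      simp
    rw [h10]
    exact h9.trans (hcase _)

/-- uniform copies of `ℓ_∞^n` -/
theorem family (h0 : Emb (E 0) (4 / 3)) (h1 : Emb (E 1) 2) :
    ∃ c > 0, ∀ n : ℕ, ∃ u : Fin n → PiTensorProduct ℝ E,
      (∀ ε : Fin n → ℝ, (∀ j, |ε j| ≤ 1) → ‖∑ j, ε j • u j‖ ≤ 24) ∧ ∀ j, c ≤ ‖u j‖ := by
  obtain ⟨x, y, w, ρ, ψ, T, hw, hw1, hid, hx, hy, hT, hTρ, a0, b0, hψ⟩ := block
  set cS : ℝ := (1 + ∑ a, (∑ b, ‖ψ a b‖ ^ 2) ^ 2) ^ (1 / 4 : ℝ) with hcS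
  have hcS0 : 0 < cS := by positivity
  have hκ : 0 < ∑ a, ∑ b, ‖ψ a b‖ ^ 2 := by
    refine Finset.sum_pos' (fun a _ => by positivity) ⟨a0, mem_univ _, ?_⟩
    refine Finset.sum_pos' (fun b _ => by positivity) ⟨b0, mem_univ _, ?_⟩
    have := norm_pos_iff.2 hψ
    positivity
  refine ⟨(∑ a, ∑ b, ‖ψ a b‖ ^ 2) / 2 / cS, by positivity, fun n => ?_⟩
  obtain ⟨J0, R0, hJR0, hJ0, hR0⟩ := emb_fin h0 (Fin n → Fin 4)
  obtain ⟨J1, R1, hJR1, hJ1, hR1⟩ := emb_fin h1 (Fin n → Bool)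
  choose c hc1 hc2 using fun j => lower (n := n) hJR0 hJR1 hR0 hR1 (ψ := ψ) hT hTρ j
  refine ⟨fun j => tm J0 J1 (fun a b => (c j * ph ρ ψ j a b).re), fun ε hε =>
    upper hJ0 hJ1 hw hw1 hid hx hy c hc1 ε hε, fun j => ?_⟩
  rw [div_le_iff₀ hcS0, mul_comm]
  exact hc2 j

end

end Pool.Agent.W26.CT
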