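import Mathlib

/-!
The explicit block: a complex disc of norm-one tensors in `ℓ_{4/3}^4 ⊗_π ℓ_2^2`.
-/

set_option autoImplicit false
open Finset
open scoped ComplexConjugate

namespace Pool.Agent.W26.CT

/-- `√3` -/
noncomputable def s3 : ℝ := √3

lemma s3_sq : s3 ^ 2 = 3 := Real.sq_sqrt (by norm_num)
lemma s3_cu : s3 ^ 3 = 3 * s3 := by rw [pow_succ, s3_sq]
lemma s3_qu : s3 ^ 4 = 9 := by
  have : s3 ^ 4 = (s3 ^ 2) ^ 2 := by ring
  rw [this, s3_sq]; norm_num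
lemma s3_pos : 0 < s3 := Real.sqrt_pos.2 (by norm_num)

/-- the tetrahedron -/
noncomputable def om (a : Fin 4) (b : Bool) : ℂ :=
  match a, b with
  | 0, false => ⟨s3 + 1, 0⟩
  | 0, true => ⟨1, 1⟩
  | 1, false => ⟨1, 1⟩
  | 1, true => ⟨s3 + 1, 0⟩
  | 2, false => ⟨1, -1⟩
  | 2, true => ⟨0, s3 + 1⟩
  | 3, false => ⟨s3 + 1, 0⟩
  | 3, true => ⟨-1, -1⟩

/-- the octahedron, not normalised -/
noncomputable def oc (s : Fin 3 × Bool) (b : Bool) : ℂ :=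
  match s, b with
  | (0, false), false => ⟨1, 0⟩
  | (0, false), true => ⟨1, 0⟩
  | (0, true), false => ⟨1, 0⟩
  | (0, true), true => ⟨-1, 0⟩
  | (1, false), false => ⟨1, 0⟩
  | (1, false), true => ⟨0, 1⟩
  | (1, true), false => ⟨1, 0⟩
  | (1, true), true => ⟨0, -1⟩
  | (2, false), false => ⟨1, 0⟩
  | (2, false), true => ⟨0, 0⟩
  | (2, true), false => ⟨0, 0⟩
  | (2, true), true => ⟨1, 0⟩

/-- normalising factors -/
noncomputable def nf (s : Fin 3 × Bool) : ℝ := if s.1 = 2 then 1 else √(1 / 2)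

/-- `|nf|^4` -/
noncomputable def nf4 (s : Fin 3 × Bool) : ℝ := if s.1 = 2 then 1 else 1 / 4

lemma nf_four (s : Fin 3 × Bool) : nf s ^ 4 = nf4 s := by
  unfold nf nf4
  split_ifs
  · norm_num
  · have : √(1 / 2 : ℝ) ^ 4 = (√(1 / 2 : ℝ) ^ 2) ^ 2 := by ring
    rw [this, Real.sq_sqrt (by norm_num)]; norm_num

/-- third roots of unity -/
noncomputable def ze (k : Fin 3) : ℂ :=
  match k with
  | 0 => ⟨1, 0⟩
  | 1 => ⟨-1 / 2, s3 / 2⟩
  | 2 => ⟨-1 / 2, -s3 / 2⟩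

/-- the constant `C` -/
noncomputable def CC : ℝ := 64 + 32 * s3

lemma CC_pos : 0 < CC := by have := s3_pos; unfold CC; positivity

/-- pairing `⟨om a, x⟩` -/
noncomputable def pr (a : Fin 4) (x : Bool → ℂ) : ℂ := ∑ b, conj (om a b) * x b

lemma iso (x : Bool → ℂ) : ∑ a, ‖pr a x‖ ^ 4 = CC * (∑ b, ‖x b‖ ^ 2) ^ 2 := by
  have h4 : ∀ z : ℂ, ‖z‖ ^ 4 = (z.re * z.re + z.im * z.im) ^ 2 := fun z => by
    rw [← Complex.normSq_apply, Complex.normSq_eq_norm_sq]; ring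
  have h2 : ∀ z : ℂ, ‖z‖ ^ 2 = z.re * z.re + z.im * z.im := fun z => by
    rw [← Complex.normSq_apply, Complex.normSq_eq_norm_sq]
  simp only [h4, h2, pr, Fin.sum_univ_four, Fintype.sum_bool, om, CC]
  simp only [Complex.add_re, Complex.add_im, Complex.mul_re, Complex.mul_im, Complex.conj_re,
    Complex.conj_im]
  generalize (x true).re = x1
  generalize (x true).im = x2
  generalize (x false).re = y1
  generalize (x false).im = y2
  ring_nf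
  simp only [s3_sq, s3_cu, s3_qu]
  ring

/-- the vanishing of the antiholomorphic part -/
lemma van (a : Fin 4) (b : Bool) :
    ∑ s : Fin 3 × Bool, ze s.1 * ((nf4 s : ℝ) : ℂ) *
      (pr a (oc s) * conj (pr a (oc s)) ^ 2 * oc s b) = 0 := by
  rw [Fintype.sum_prod_type]
  simp only [Fin.sum_univ_three, Fintype.sum_bool, nf4, ze, pr, oc]
  fin_cases a <;> cases b <;> apply Complex.ext <;>
    simp [om, pow_two] <;> ring_nf <;> simp only [s3_sq, s3_cu, s3_qu] <;> ring_nf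

/-- the holomorphic part does not vanish -/
lemma nonvan :
    (∑ s : Fin 3 × Bool, conj (ze s.1) * ((nf4 s : ℝ) : ℂ) *
      (pr 0 (oc s) * conj (pr 0 (oc s)) ^ 2 * oc s false)).re = -(3 + s3) := by
  rw [Fintype.sum_prod_type]
  simp only [Fin.sum_univ_three, Fintype.sum_bool, nf4, ze, pr, oc]
  simp [om, pow_two] <;> ring_nf <;> simp only [s3_sq, s3_cu, s3_qu] <;> ring_nf

noncomputable def xs (s : Fin 3 × Bool) (b : Bool) : ℂ := (nf s : ℂ) * oc s b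

noncomputable def c1 : ℝ := CC ^ (-(3 / 4) : ℝ)
noncomputable def c2 : ℝ := CC ^ (-(1 / 4) : ℝ)

lemma c1_pos : 0 < c1 := Real.rpow_pos_of_pos CC_pos _
lemma c2_pos : 0 < c2 := Real.rpow_pos_of_pos CC_pos _

lemma c12 : c1 * c2 * CC = 1 := by
  unfold c1 c2
  rw [← Real.rpow_add CC_pos, ← Real.rpow_add_one CC_pos.ne']
  norm_num

lemma c2_four : c2 ^ 4 * CC = 1 := by
  unfold c2
  rw [← Real.rpow_natCast, ← Real.rpow_mul CC_pos.le, ← Real.rpow_add_one CC_pos.ne']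
  norm_num

lemma c1_pow : c1 ^ (4 / 3 : ℝ) * CC = 1 := by
  unfold c1
  rw [← Real.rpow_mul CC_pos.le, ← Real.rpow_add_one CC_pos.ne']
  norm_num

noncomputable def ys (s : Fin 3 × Bool) (a : Fin 4) : ℂ :=
  (c1 : ℂ) * (pr a (xs s) * conj (pr a (xs s)) ^ 2)

lemma pr_xs (a : Fin 4) (s : Fin 3 × Bool) : pr a (xs s) = (nf s : ℂ) * pr a (oc s) := by
  simp only [pr, xs, Finset.mul_sum]
  exact Finset.sum_congr rfl fun b _ => by ring

lemma ys_xs (s : Fin 3 × Bool) (a : Fin 4) (b : Bool) :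
    ys s a * xs s b = (c1 : ℂ) * (((nf4 s : ℝ) : ℂ) *
      (pr a (oc s) * conj (pr a (oc s)) ^ 2 * oc s b)) := by
  rw [ys, pr_xs, ← nf_four, xs]
  push_cast
  simp only [map_mul, Complex.conj_ofReal]
  ring

lemma sum_xs (s : Fin 3 × Bool) : ∑ b, ‖xs s b‖ ^ 2 = 1 := by
  have h : nf s ^ 2 * ∑ b, ‖oc s b‖ ^ 2 = 1 := by
    obtain ⟨k, σ⟩ := s
    have h2 : ∀ z : ℂ, ‖z‖ ^ 2 = z.re * z.re + z.im * z.im := fun z => by
      rw [← Complex.normSq_apply, Complex.normSq_eq_norm_sq]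
    simp only [h2, Fintype.sum_bool]
    fin_cases k <;> cases σ <;> simp [nf, oc] <;> norm_num
  rw [← h, Finset.mul_sum]
  refine Finset.sum_congr rfl fun b _ => ?_
  rw [xs, norm_mul, mul_pow, Complex.norm_real, Real.norm_eq_abs, sq_abs]

lemma norm_ys (s : Fin 3 × Bool) (a : Fin 4) : ‖ys s a‖ = c1 * ‖pr a (xs s)‖ ^ 3 := by
  rw [ys, norm_mul, norm_mul, norm_pow, RCLike.norm_conj, Complex.norm_real,
    Real.norm_of_nonneg c1_pos.le]
  ring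

lemma sum_ys (s : Fin 3 × Bool) : ∑ a, ‖ys s a‖ ^ (4 / 3 : ℝ) = 1 := by
  have h : ∀ a, ‖ys s a‖ ^ (4 / 3 : ℝ) = c1 ^ (4 / 3 : ℝ) * ‖pr a (xs s)‖ ^ 4 := by
    intro a
    rw [norm_ys, Real.mul_rpow c1_pos.le (by positivity)]
    congr 1
    rw [← Real.rpow_natCast, ← Real.rpow_natCast, ← Real.rpow_mul (norm_nonneg _)]
    norm_num
  simp_rw [h]
  rw [← Finset.mul_sum, iso, sum_xs]
  have := c1_pow
  linarith

noncomputable def wt (z : ℂ) (s : Fin 3 × Bool) : ℝ := 1 / 2 * (1 / 3 + 2 * (z * conj (ze s.1)).re)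

lemma wt_c (z : ℂ) (s : Fin 3 × Bool) :
    ((wt z s : ℝ) : ℂ) = 1 / 6 + z * (1 / 2 * conj (ze s.1)) + conj z * (1 / 2 * ze s.1) := by
  have h : ((2 * (z * conj (ze s.1)).re : ℝ) : ℂ) = z * conj (ze s.1) + conj z * ze s.1 := by
    rw [← Complex.conj_conj (ze s.1), ← map_mul, Complex.conj_conj]
    rw [Complex.add_conj]
    try simp
  rw [wt, Complex.ofReal_mul, Complex.ofReal_add, h]
  push_cast
  ring

lemma norm_ze (k : Fin 3) : ‖ze k‖ = 1 := by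
  have h2 : ‖ze k‖ ^ 2 = 1 := by
    rw [← Complex.normSq_eq_norm_sq, Complex.normSq_apply]
    have := s3_sq
    fin_cases k <;> simp [ze] <;> nlinarith
  nlinarith [norm_nonneg (ze k)]

lemma wt_nonneg {z : ℂ} (hz : ‖z‖ ≤ 1 / 6) (s : Fin 3 × Bool) : 0 ≤ wt z s := by
  have h1 : |(z * conj (ze s.1)).re| ≤ 1 / 6 := by
    refine (Complex.abs_re_le_norm _).trans ?_
    rw [norm_mul, RCLike.norm_conj, norm_ze, mul_one]
    exact hz
  have := (abs_le.1 h1).1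
  unfold wt
  linarith

lemma sum_ze : ∑ k, ze k = 0 := by
  rw [Fin.sum_univ_three]
  apply Complex.ext <;> simp [ze] <;> ring

lemma sum_wt (z : ℂ) : ∑ s, wt z s = 1 := by
  have h : ∑ s : Fin 3 × Bool, (z * conj (ze s.1)).re = 0 := by
    rw [← Complex.re_sum, ← Finset.mul_sum, Fintype.sum_prod_type]
    simp only [Finset.sum_const, Finset.card_univ, Fintype.card_bool]
    rw [← Finset.smul_sum, ← map_sum, sum_ze]
    simp
  have : ∑ s, wt z s = ∑ s : Fin 3 × Bool, (1 / 6 + (z * conj (ze s.1)).re) :=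
    Finset.sum_congr rfl fun s _ => by unfold wt; ring
  rw [this, Finset.sum_add_distrib, h]
  simp

noncomputable def rho (a : Fin 4) (b : Bool) : ℂ := ∑ s, (1 / 6 : ℂ) * (ys s a * xs s b)
noncomputable def psi (a : Fin 4) (b : Bool) : ℂ :=
  ∑ s : Fin 3 × Bool, 1 / 2 * conj (ze s.1) * (ys s a * xs s b)

lemma ident (z : ℂ) (a : Fin 4) (b : Bool) :
    ∑ s, ((wt z s : ℝ) : ℂ) * (ys s a * xs s b) = rho a b + z * psi a b := by
  have h : ∑ s : Fin 3 × Bool, 1 / 2 * ze s.1 * (ys s a * xs s b) = 0 := by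
    have : ∀ s : Fin 3 × Bool, 1 / 2 * ze s.1 * (ys s a * xs s b)
        = (c1 / 2 : ℂ) * (ze s.1 * ((nf4 s : ℝ) : ℂ) *
          (pr a (oc s) * conj (pr a (oc s)) ^ 2 * oc s b)) := fun s => by
      rw [ys_xs]; ring
    simp_rw [this]
    rw [← Finset.mul_sum, van, mul_zero]
  have h2 : ∑ s, ((wt z s : ℝ) : ℂ) * (ys s a * xs s b) = rho a b + z * psi a b
      + conj z * ∑ s : Fin 3 × Bool, 1 / 2 * ze s.1 * (ys s a * xs s b) := by
    rw [rho, psi, Finset.mul_sum, Finset.mul_sum, ← Finset.sum_add_distrib,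
      ← Finset.sum_add_distrib]
    refine Finset.sum_congr rfl fun s _ => ?_
    rw [wt_c]; ring
  rw [h2, h]; ring

lemma psi_ne : psi 0 false ≠ 0 := by
  intro h0
  have h : psi 0 false = (c1 / 2 : ℂ) * ∑ s : Fin 3 × Bool, conj (ze s.1) * ((nf4 s : ℝ) : ℂ) *
      (pr 0 (oc s) * conj (pr 0 (oc s)) ^ 2 * oc s false) := by
    rw [psi, Finset.mul_sum]
    refine Finset.sum_congr rfl fun s _ => ?_
    rw [ys_xs]; ring
  rw [h] at h0
  have hc : (c1 / 2 : ℂ) ≠ 0 := by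
    have := c1_pos.ne'
    simp [this]
  have h3 := (mul_eq_zero.1 h0).resolve_left hc
  have h4 := nonvan
  rw [h3] at h4
  have := s3_pos
  simp at h4
  linarith

noncomputable def TT (a : Fin 4) (b : Bool) : ℂ := (c2 : ℂ) * conj (om a b)

lemma TT_iso (x : Bool → ℂ) : ∑ a, ‖∑ b, TT a b * x b‖ ^ 4 = (∑ b, ‖x b‖ ^ 2) ^ 2 := by
  have h : ∀ a, ∑ b, TT a b * x b = (c2 : ℂ) * pr a x := fun a => by
    rw [pr, Finset.mul_sum]
    exact Finset.sum_congr rfl fun b _ => by rw [TT]; ring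
  simp_rw [h, norm_mul, mul_pow]
  rw [← Finset.mul_sum, iso, Complex.norm_real, Real.norm_of_nonneg c2_pos.le, ← mul_assoc,
    c2_four, one_mul]

lemma TT_rho : ∑ a, ∑ b, TT a b * rho a b = 1 := by
  have h1 : ∀ a, ∑ b, TT a b * rho a b
      = ∑ s, (1 / 6 : ℂ) * ((c1 * c2 : ℝ) : ℂ) * ((‖pr a (xs s)‖ ^ 4 : ℝ) : ℂ) := by
    intro a
    simp_rw [rho, Finset.mul_sum]
    rw [Finset.sum_comm]
    refine Finset.sum_congr rfl fun s _ => ?_
    have h2 : ((‖pr a (xs s)‖ ^ 4 : ℝ) : ℂ) = (pr a (xs s) * conj (pr a (xs s))) ^ 2 := by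
      rw [Complex.mul_conj, Complex.normSq_eq_norm_sq]
      push_cast
      ring
    rw [h2]
    have h3 : ∑ b, TT a b * (1 / 6 * (ys s a * xs s b))
        = (1 / 6 : ℂ) * c2 * ys s a * ∑ b, conj (om a b) * xs s b := by
      rw [Finset.mul_sum]
      exact Finset.sum_congr rfl fun b _ => by rw [TT]; ring
    rw [h3]
    change (1 / 6 : ℂ) * c2 * ys s a * pr a (xs s) = _
    rw [ys]
    push_cast
    ring
  simp_rw [h1]
  rw [Finset.sum_comm]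
  have h4 : ∀ s : Fin 3 × Bool, ∑ a, (1 / 6 : ℂ) * ((c1 * c2 : ℝ) : ℂ) *
      ((‖pr a (xs s)‖ ^ 4 : ℝ) : ℂ) = 1 / 6 := by
    intro s
    rw [← Finset.mul_sum, ← Complex.ofReal_sum, iso, sum_xs, mul_assoc, ← Complex.ofReal_mul]
    have := c12
    rw [show c1 * c2 * (CC * 1 ^ 2) = 1 by linarith]
    simp
  simp_rw [h4]
  simp

/-- The block. -/
theorem block : ∃ (x : Fin 3 × Bool → Bool → ℂ) (y : Fin 3 × Bool → Fin 4 → ℂ)
    (w : ℂ → Fin 3 × Bool → ℝ) (ρ ψ : Fin 4 → Bool → ℂ) (T : Fin 4 → Bool → ℂ),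
    (∀ z, ‖z‖ ≤ 1 / 6 → ∀ s, 0 ≤ w z s) ∧ (∀ z, ∑ s, w z s = 1) ∧
    (∀ z a b, ∑ s, ((w z s : ℝ) : ℂ) * (y s a * x s b) = ρ a b + z * ψ a b) ∧
    (∀ s, ∑ b, ‖x s b‖ ^ (2 : ℝ) = 1) ∧ (∀ s, ∑ a, ‖y s a‖ ^ (4 / 3 : ℝ) = 1) ∧
    (∀ x : Bool → ℂ, ∑ a, ‖∑ b, T a b * x b‖ ^ 4 = (∑ b, ‖x b‖ ^ 2) ^ 2) ∧
    ∑ a, ∑ b, T a b * ρ a b = 1 ∧ ∃ a b, ψ a b ≠ 0 :=
  ⟨xs, ys, wt, rho, psi, TT, fun z hz s => wt_nonneg hz s, sum_wt, ident, fun s => by
    simpa using sum_xs s, sum_ys, TT_iso, TT_rho, 0, false, psi_ne⟩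

end Pool.Agent.W26.CT
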