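import Mathlib

/-!
Statements of the independent parts for S06782: `L_{4/3} ⊗_π L_2` does not have finite cotype.
-/

set_option autoImplicit false
open scoped ENNReal BigOperators
open MeasureTheory

namespace Pool.Agent.W26.CT

/-- `ℓ_p^N` sits isometrically and norm-one complemented in `L_p([0,1])`. -/
def S_LP : Prop :=
  ∀ (p : ℝ≥0∞) [Fact (1 ≤ p)], p ≠ ∞ → ∀ N : ℕ,
    ∃ (J : (Fin N → ℝ) →ₗ[ℝ] Lp ℝ p (volume.restrict (Set.Icc (0:ℝ) 1)))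
      (P : Lp ℝ p (volume.restrict (Set.Icc (0:ℝ) 1)) →ₗ[ℝ] (Fin N → ℝ)),
      (∀ a, P (J a) = a) ∧
      (∀ a, ‖J a‖ ≤ (∑ k, |a k| ^ p.toReal) ^ (1 / p.toReal)) ∧
      (∀ f, (∑ k, |P f k| ^ p.toReal) ^ (1 / p.toReal) ≤ ‖f‖)

/-- Tensor products of operators `ℓ_2^2 → ℓ_4^4` have norm at most the product of the norms. -/
def S_MINK : Prop :=
  ∀ (n : ℕ) (T : Fin n → Fin 4 → Bool → ℂ) (c : Fin n → ℝ), (∀ j, 0 ≤ c j) →
    (∀ (j : Fin n) (x : Bool → ℂ),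
      ∑ a, ‖∑ b, T j a b * x b‖ ^ 4 ≤ c j * (∑ b, ‖x b‖ ^ 2) ^ 2) →
    ∀ x : (Fin n → Bool) → ℂ,
      ∑ a : Fin n → Fin 4, ‖∑ b : Fin n → Bool, (∏ j, T j (a j) (b j)) * x b‖ ^ 4
        ≤ (∏ j, c j) * (∑ b, ‖x b‖ ^ 2) ^ 2

/-- Hahn-Banach for the projective seminorm. -/
def S_HB : Prop :=
  ∀ (E : Fin 2 → Type) [∀ i, NormedAddCommGroup (E i)] [∀ i, NormedSpace ℝ (E i)]
    (u : PiTensorProduct ℝ E),
    ∃ g : PiTensorProduct ℝ E →ₗ[ℝ] ℝ, g u = PiTensorProduct.projectiveSeminorm u ∧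
      ∀ v, |g v| ≤ PiTensorProduct.projectiveSeminorm v

end Pool.Agent.W26.CT
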