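import Pool.Agent.W26.CT.Prod
import Pool.Agent.W26.CT.Block
import Pool.Agent.W26.CT.Stm

/-!
Assembly: families of tensors equivalent to `ℓ_∞^n`.
-/

set_option autoImplicit false
open Finset
open scoped ComplexConjugate TensorProduct

namespace Pool.Agent.W26.CT

section
variable {E : Fin 2 → Type} [∀ i, NormedAddCommGroup (E i)] [∀ i, NormedSpace ℝ (E i)]

/-- the pair as a dependent function -/
def vec (f : E 0) (g : E 1) : ∀ i, E i := Function.update (Function.update (fun _ => 0) 0 f) 1 g

lemma vec0 (f : E 0) (g : E 1) : vec f g 0 = f := by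
  rw [vec, Function.update_of_ne (by decide), Function.update_self]
lemma vec1 (f : E 0) (g : E 1) : vec f g 1 = g := by
  rw [vec, Function.update_self]

lemma vec_comm (f : E 0) (g : E 1) :
    vec f g = Function.update (Function.update (fun _ => 0) 1 g) 0 f := by
  rw [vec, Function.update_comm (by decide)]

/-- elementary tensors as a bilinear map -/
noncomputable def tp : E 0 →ₗ[ℝ] E 1 →ₗ[ℝ] PiTensorProduct ℝ E :=
  LinearMap.mk₂ ℝ (fun f g => PiTensorProduct.tprod ℝ (vec f g))
    (fun f f' g => by
      simp only [vec_comm]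
      exact MultilinearMap.map_update_add _ _ _ _ _)
    (fun c f g => by
      simp only [vec_comm]
      exact MultilinearMap.map_update_smul _ _ _ _ _)
    (fun f g g' => by
      simp only [vec]
      exact MultilinearMap.map_update_add _ _ _ _ _)
    (fun c f g => by
      simp only [vec]
      exact MultilinearMap.map_update_smul _ _ _ _ _)

lemma tp_apply (f : E 0) (g : E 1) : tp f g = PiTensorProduct.tprod ℝ (vec f g) := rfl

lemma norm_tp (f : E 0) (g : E 1) : ‖tp f g‖ ≤ ‖f‖ * ‖g‖ := by
  rw [tp_apply]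
  refine (PiTensorProduct.projectiveSeminorm_tprod_le _).trans ?_
  rw [Fin.prod_univ_two, vec0, vec1]

/-- evaluation of a bounded bilinear form on tensors -/
lemma eval_bound (Θ : E 0 →ₗ[ℝ] E 1 →ₗ[ℝ] ℝ) (M : ℝ)
    (hΘ : ∀ f g, |Θ f g| ≤ M * (‖f‖ * ‖g‖)) (hM : 0 ≤ M) :
    ∃ L : PiTensorProduct ℝ E →ₗ[ℝ] ℝ, (∀ f g, L (tp f g) = Θ f g) ∧ ∀ u, |L u| ≤ M * ‖u‖ := by
  let mm : MultilinearMap ℝ E ℝ :=
    { toFun := fun v => Θ (v 0) (v 1)
      map_update_add' := by
        intro _ v i x y
        fin_cases i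
        · simp [Function.update_of_ne]
        · simp [Function.update_of_ne]
      map_update_smul' := by
        intro _ v i c x
        fin_cases i
        · simp [Function.update_of_ne]
        · simp [Function.update_of_ne] }
  have hmm : ∀ v, ‖mm v‖ ≤ M * ∏ i, ‖v i‖ := fun v => by
    rw [Fin.prod_univ_two]
    exact hΘ _ _
  refine ⟨PiTensorProduct.lift mm, fun f g => ?_, fun u => ?_⟩
  · rw [tp_apply, PiTensorProduct.lift.tprod]
    change Θ (vec f g 0) (vec f g 1) = _
    rw [vec0, vec1]
  · have h1 := PiTensorProduct.norm_eval_le_projectiveSeminorm (mm.mkContinuous M hmm) u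
    have h2 : ‖mm.mkContinuous M hmm‖ ≤ M := MultilinearMap.mkContinuous_norm_le _ hM hmm
    exact h1.trans (mul_le_mul_of_nonneg_right h2 (norm_nonneg _))

end

end Pool.Agent.W26.CT
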