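import Pool.Agent.W26.CT.Asm
import Pool.Agent.W782.CT.HB
import Pool.Agent.W465.CT.Mink

/-!
Families of tensors equivalent to `ℓ_∞^n` in `E 0 ⊗ E 1` when `E 0` contains complemented
`ℓ_{4/3}^N` and `E 1` complemented `ℓ_2^N`.
-/

set_option autoImplicit false
open Finset
open scoped ComplexConjugate TensorProduct

namespace Pool.Agent.W26.CT

/-- contains norm-one complemented copies of `ℓ_P^N` -/
def Emb (F : Type) [NormedAddCommGroup F] [NormedSpace ℝ F] (P : ℝ) : Prop :=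
  ∀ N : ℕ, ∃ (J : (Fin N → ℝ) →ₗ[ℝ] F) (R : F →ₗ[ℝ] (Fin N → ℝ)),
    (∀ a, R (J a) = a) ∧ (∀ a, ‖J a‖ ≤ (∑ k, |a k| ^ P) ^ (1 / P)) ∧
    (∀ f, (∑ k, |R f k| ^ P) ^ (1 / P) ≤ ‖f‖)

lemma emb_fin {F : Type} [NormedAddCommGroup F] [NormedSpace ℝ F] {P : ℝ} (h : Emb F P)
    (A : Type) [Fintype A] [DecidableEq A] :
    ∃ (J : (A → ℝ) →ₗ[ℝ] F) (R : F →ₗ[ℝ] (A → ℝ)),
    (∀ a, R (J a) = a) ∧ (∀ a, ‖J a‖ ≤ (∑ k, |a k| ^ P) ^ (1 / P)) ∧
    (∀ f, (∑ k, |R f k| ^ P) ^ (1 / P) ≤ ‖f‖) := by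
  let e := Fintype.equivFin A
  obtain ⟨J, R, h1, h2, h3⟩ := h (Fintype.card A)
  refine ⟨J ∘ₗ LinearMap.funLeft ℝ ℝ e.symm, LinearMap.funLeft ℝ ℝ e ∘ₗ R, fun a => ?_,
    fun a => ?_, fun f => ?_⟩
  · simp only [LinearMap.comp_apply, h1]
    funext k
    simp [LinearMap.funLeft_apply]
  · refine (h2 _).trans (le_of_eq ?_)
    congr 1
    simp only [LinearMap.funLeft_apply]
    exact e.symm.sum_comp (fun k => |a k| ^ P)
  · refine le_trans (le_of_eq ?_) (h3 f)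
    congr 1
    simp only [LinearMap.comp_apply, LinearMap.funLeft_apply]
    exact e.sum_comp (fun k => |R f k| ^ P)

section
variable {A B : Type} [Fintype A] [Fintype B] [DecidableEq A] [DecidableEq B]

/-- complexification of a bounded real bilinear form -/
lemma complexify (G : A → B → ℝ) (hG : ∀ (f : A → ℝ) (h : B → ℝ), |∑ a, ∑ b, G a b * (f a * h b)|
      ≤ (∑ a, |f a| ^ (4 / 3 : ℝ)) ^ (1 / (4 / 3 : ℝ)) * (∑ b, |h b| ^ (2 : ℝ)) ^ (1 / (2 : ℝ)))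
    (f : A → ℂ) (h : B → ℂ) :
    ‖∑ a, ∑ b, ((G a b : ℝ) : ℂ) * (f a * h b)‖ ≤
      4 * (∑ a, ‖f a‖ ^ (4 / 3 : ℝ)) ^ (1 / (4 / 3 : ℝ)) *
        (∑ b, ‖h b‖ ^ (2 : ℝ)) ^ (1 / (2 : ℝ)) := by
  have key : ∀ (f' : A → ℝ) (h' : B → ℝ), (∀ a, |f' a| ≤ ‖f a‖) → (∀ b, |h' b| ≤ ‖h b‖) →
      |∑ a, ∑ b, G a b * (f' a * h' b)| ≤ (∑ a, ‖f a‖ ^ (4 / 3 : ℝ)) ^ (1 / (4 / 3 : ℝ)) *
        (∑ b, ‖h b‖ ^ (2 : ℝ)) ^ (1 / (2 : ℝ)) := by
    intro f' h' hf hh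
    refine (hG f' h').trans ?_
    refine mul_le_mul ?_ ?_ (by positivity) (by positivity)
    · exact Real.rpow_le_rpow (by positivity) (Finset.sum_le_sum fun a _ =>
        Real.rpow_le_rpow (abs_nonneg _) (hf a) (by norm_num)) (by norm_num)
    · exact Real.rpow_le_rpow (by positivity) (Finset.sum_le_sum fun b _ =>
        Real.rpow_le_rpow (abs_nonneg _) (hh b) (by norm_num)) (by norm_num)
  have k1 := key (fun a => (f a).re) (fun b => (h b).re) (fun a => Complex.abs_re_le_norm _)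
    (fun b => Complex.abs_re_le_norm _)
  have k2 := key (fun a => (f a).im) (fun b => (h b).im) (fun a => Complex.abs_im_le_norm _)
    (fun b => Complex.abs_im_le_norm _)
  have k3 := key (fun a => (f a).re) (fun b => (h b).im) (fun a => Complex.abs_re_le_norm _)
    (fun b => Complex.abs_im_le_norm _)
  have k4 := key (fun a => (f a).im) (fun b => (h b).re) (fun a => Complex.abs_im_le_norm _)
    (fun b => Complex.abs_re_le_norm _)
  have e : ∑ a, ∑ b, ((G a b : ℝ) : ℂ) * (f a * h b)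
      = ((∑ a, ∑ b, G a b * ((f a).re * (h b).re) : ℝ) : ℂ)
        - ((∑ a, ∑ b, G a b * ((f a).im * (h b).im) : ℝ) : ℂ)
        + (((∑ a, ∑ b, G a b * ((f a).re * (h b).im) : ℝ) : ℂ)
        + ((∑ a, ∑ b, G a b * ((f a).im * (h b).re) : ℝ) : ℂ)) * Complex.I := by
    push_cast
    rw [← Finset.sum_sub_distrib, ← Finset.sum_add_distrib, Finset.sum_mul,
      ← Finset.sum_add_distrib]
    refine Finset.sum_congr rfl fun a _ => ?_
    rw [← Finset.sum_sub_distrib, ← Finset.sum_add_distrib, Finset.sum_mul,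
      ← Finset.sum_add_distrib]
    refine Finset.sum_congr rfl fun b _ => ?_
    conv_lhs => rw [← Complex.re_add_im (f a), ← Complex.re_add_im (h b)]
    have := Complex.I_sq
    linear_combination ((G a b : ℂ) * (f a).im * (h b).im) * this
  rw [e]
  set X := (∑ a, ‖f a‖ ^ (4 / 3 : ℝ)) ^ (1 / (4 / 3 : ℝ)) *
        (∑ b, ‖h b‖ ^ (2 : ℝ)) ^ (1 / (2 : ℝ)) with hX
  calc _ ≤ (|∑ a, ∑ b, G a b * ((f a).re * (h b).re)| + |∑ a, ∑ b, G a b * ((f a).im * (h b).im)|)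
        + (|∑ a, ∑ b, G a b * ((f a).re * (h b).im)| +
          |∑ a, ∑ b, G a b * ((f a).im * (h b).re)|) := by
        refine (norm_add_le _ _).trans (add_le_add ((norm_sub_le _ _).trans ?_) ?_)
        · rw [Complex.norm_real, Complex.norm_real, Real.norm_eq_abs, Real.norm_eq_abs]
        · rw [norm_mul, Complex.norm_I, mul_one]
          refine (norm_add_le _ _).trans ?_
          rw [Complex.norm_real, Complex.norm_real, Real.norm_eq_abs, Real.norm_eq_abs]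
    _ ≤ (X + X) + (X + X) := by gcongr
    _ = _ := by rw [hX]; ring

/-- Hölder bound for a matrix of small `2 → 4` norm -/
lemma holder_bound (Θ : A → B → ℂ) {c : ℝ} (hc : 0 ≤ c)
    (hΘ : ∀ x : B → ℂ, ∑ a, ‖∑ b, Θ a b * x b‖ ^ 4 ≤ c * (∑ b, ‖x b‖ ^ 2) ^ 2)
    (f : A → ℝ) (h : B → ℝ) :
    ‖∑ a, ∑ b, Θ a b * ((f a : ℂ) * (h b : ℂ))‖ ≤ c ^ (1 / 4 : ℝ) *
      ((∑ a, |f a| ^ (4 / 3 : ℝ)) ^ (1 / (4 / 3 : ℝ)) *
        (∑ b, |h b| ^ (2 : ℝ)) ^ (1 / (2 : ℝ))) := by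
  have hconj : (4 / 3 : ℝ).HolderConjugate 4 := by
    rw [Real.holderConjugate_iff]; norm_num
  have e : ∀ a, ∑ b, Θ a b * ((f a : ℂ) * (h b : ℂ)) = (f a : ℂ) * ∑ b, Θ a b * (h b : ℂ) :=
    fun a => by
      rw [Finset.mul_sum]
      exact Finset.sum_congr rfl fun b _ => by ring
  simp_rw [e]
  calc ‖∑ a, (f a : ℂ) * ∑ b, Θ a b * (h b : ℂ)‖
      ≤ ∑ a, |f a| * ‖∑ b, Θ a b * (h b : ℂ)‖ := by
        refine norm_sum_le_of_le _ fun a _ => ?_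
        rw [norm_mul, Complex.norm_real, Real.norm_eq_abs]
    _ ≤ (∑ a, |f a| ^ (4 / 3 : ℝ)) ^ (1 / (4 / 3 : ℝ)) *
        (∑ a, ‖∑ b, Θ a b * (h b : ℂ)‖ ^ (4 : ℝ)) ^ (1 / (4 : ℝ)) :=
        Real.inner_le_Lp_mul_Lq_of_nonneg _ hconj (fun _ _ => abs_nonneg _)
          fun _ _ => norm_nonneg _
    _ ≤ (∑ a, |f a| ^ (4 / 3 : ℝ)) ^ (1 / (4 / 3 : ℝ)) *
        (c ^ (1 / 4 : ℝ) * (∑ b, |h b| ^ (2 : ℝ)) ^ (1 / (2 : ℝ))) := by
        refine mul_le_mul_of_nonneg_left ?_ (by positivity)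
        have h1 : ∑ a, ‖∑ b, Θ a b * (h b : ℂ)‖ ^ (4 : ℝ) ≤ c * (∑ b, |h b| ^ (2 : ℝ)) ^ 2 := by
          have h2 := hΘ (fun b => (h b : ℂ))
          simp only [Complex.norm_real, Real.norm_eq_abs] at h2
          have h3 : ∀ a, ‖∑ b, Θ a b * (h b : ℂ)‖ ^ (4 : ℝ) = ‖∑ b, Θ a b * (h b : ℂ)‖ ^ 4 :=
            fun a => by rw [← Real.rpow_natCast]; norm_num
          have h4 : ∀ b, |h b| ^ (2 : ℝ) = |h b| ^ 2 := fun b => by
            rw [← Real.rpow_natCast]; norm_num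
          simp_rw [h3, h4]
          exact h2
        have h5 : 0 ≤ ∑ b, |h b| ^ (2 : ℝ) := by positivity
        calc (∑ a, ‖∑ b, Θ a b * (h b : ℂ)‖ ^ (4 : ℝ)) ^ (1 / (4 : ℝ))
            ≤ (c * (∑ b, |h b| ^ (2 : ℝ)) ^ 2) ^ (1 / (4 : ℝ)) :=
              Real.rpow_le_rpow (by positivity) h1 (by norm_num)
          _ = c ^ (1 / 4 : ℝ) * (∑ b, |h b| ^ (2 : ℝ)) ^ (1 / (2 : ℝ)) := by
              rw [Real.mul_rpow hc (by positivity), ← Real.rpow_natCast, ← Real.rpow_mul h5]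
              norm_num
    _ = _ := by ring

end

end Pool.Agent.W26.CT
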