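import Mathlib

/-!
Products of a family of rank-one decompositions depending real-affinely on a complex parameter, and
extraction of the linear coefficient.
-/

set_option autoImplicit false
open Finset

namespace Pool.Agent.W26.CT

variable {ι α β S : Type} [Fintype ι] [DecidableEq ι] [Fintype α] [Fintype β] [Fintype S]

theorem prod_state {x : S → β → ℂ} {y : S → α → ℂ} {w : ℂ → S → ℝ} {ρ ψ : α → β → ℂ}
    {t P Q : ℝ} (hw : ∀ z, ‖z‖ ≤ t → ∀ s, 0 ≤ w z s) (hw1 : ∀ z, ∑ s, w z s = 1)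
    (hid : ∀ z a b, ∑ s, ((w z s : ℝ) : ℂ) * (y s a * x s b) = ρ a b + z * ψ a b)
    (hx : ∀ s, ∑ b, ‖x s b‖ ^ Q = 1) (hy : ∀ s, ∑ a, ‖y s a‖ ^ P = 1)
    (A : (ι → α) → (ι → β) → ℂ) (K : ℝ)
    (hA : ∀ (f : (ι → α) → ℂ) (h : (ι → β) → ℂ), ‖∑ a, ∑ b, A a b * (f a * h b)‖
      ≤ K * (∑ a, ‖f a‖ ^ P) ^ (1 / P) * (∑ b, ‖h b‖ ^ Q) ^ (1 / Q))
    (z : ι → ℂ) (hz : ∀ j, ‖z j‖ ≤ t) :
    ‖∑ a, ∑ b, A a b * ∏ j, (ρ (a j) (b j) + z j * ψ (a j) (b j))‖ ≤ K := by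
  have e1 : ∀ (a : ι → α) (b : ι → β), ∏ j, (ρ (a j) (b j) + z j * ψ (a j) (b j))
      = ∑ s : ι → S, ((∏ j, w (z j) (s j) : ℝ) : ℂ) *
        ((∏ j, y (s j) (a j)) * ∏ j, x (s j) (b j)) := by
    intro a b
    simp_rw [← hid]
    rw [Finset.prod_univ_sum, Fintype.piFinset_univ]
    refine Finset.sum_congr rfl fun s _ => ?_
    rw [Finset.prod_mul_distrib, Finset.prod_mul_distrib]
    push_cast
    rfl
  have e2 : ∑ a, ∑ b, A a b * ∏ j, (ρ (a j) (b j) + z j * ψ (a j) (b j))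
      = ∑ s : ι → S, ((∏ j, w (z j) (s j) : ℝ) : ℂ) *
        ∑ a, ∑ b, A a b * ((∏ j, y (s j) (a j)) * ∏ j, x (s j) (b j)) := by
    simp_rw [e1, Finset.mul_sum]
    have : ∀ a : ι → α, ∑ b : ι → β, ∑ s : ι → S, A a b *
        (((∏ j, w (z j) (s j) : ℝ) : ℂ) * ((∏ j, y (s j) (a j)) * ∏ j, x (s j) (b j))) =
        ∑ s : ι → S, ∑ b : ι → β, ((∏ j, w (z j) (s j) : ℝ) : ℂ) *
        (A a b * ((∏ j, y (s j) (a j)) * ∏ j, x (s j) (b j))) := by
      intro a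
      rw [Finset.sum_comm]
      refine Finset.sum_congr rfl fun s _ => Finset.sum_congr rfl fun b _ => by ring
    simp_rw [this]
    rw [Finset.sum_comm]
  have e3 : ∀ s : ι → S,
      ‖∑ a, ∑ b, A a b * ((∏ j, y (s j) (a j)) * ∏ j, x (s j) (b j))‖ ≤ K := by
    intro s
    refine (hA (fun a => ∏ j, y (s j) (a j)) (fun b => ∏ j, x (s j) (b j))).trans ?_
    have g1 : ∑ a : ι → α, ‖∏ j, y (s j) (a j)‖ ^ P = 1 := by
      have : ∀ a : ι → α, ‖∏ j, y (s j) (a j)‖ ^ P = ∏ j, ‖y (s j) (a j)‖ ^ P := fun a => by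
        rw [norm_prod, Real.finsetProd_rpow _ _ fun _ _ => norm_nonneg _]
      simp_rw [this]
      rw [← Fintype.piFinset_univ, ← Finset.prod_univ_sum (fun _ => univ)
        (fun j v => ‖y (s j) v‖ ^ P)]
      exact Finset.prod_eq_one fun j _ => hy _
    have g2 : ∑ b : ι → β, ‖∏ j, x (s j) (b j)‖ ^ Q = 1 := by
      have : ∀ b : ι → β, ‖∏ j, x (s j) (b j)‖ ^ Q = ∏ j, ‖x (s j) (b j)‖ ^ Q := fun b => by
        rw [norm_prod, Real.finsetProd_rpow _ _ fun _ _ => norm_nonneg _]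
      simp_rw [this]
      rw [← Fintype.piFinset_univ, ← Finset.prod_univ_sum (fun _ => univ)
        (fun j v => ‖x (s j) v‖ ^ Q)]
      exact Finset.prod_eq_one fun j _ => hx _
    rw [g1, g2]; simp
  have hw0 : ∀ s : ι → S, 0 ≤ ∏ j, w (z j) (s j) := fun s =>
    Finset.prod_nonneg fun j _ => hw (z j) (hz j) _
  have hw2 : ∑ s : ι → S, ∏ j, w (z j) (s j) = 1 := by
    rw [← Fintype.piFinset_univ, ← Finset.prod_univ_sum (fun _ => univ)
        (fun j v => w (z j) v)]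
    exact Finset.prod_eq_one fun j _ => hw1 _
  rw [e2]
  calc ‖∑ s : ι → S, ((∏ j, w (z j) (s j) : ℝ) : ℂ) *
        ∑ a, ∑ b, A a b * ((∏ j, y (s j) (a j)) * ∏ j, x (s j) (b j))‖
      ≤ ∑ s : ι → S, (∏ j, w (z j) (s j)) * K := by
        refine norm_sum_le_of_le _ fun s _ => ?_
        rw [norm_mul, Complex.norm_real, Real.norm_of_nonneg (hw0 s)]
        exact mul_le_mul_of_nonneg_left (e3 s) (hw0 s)
    _ = K := by rw [← Finset.sum_mul, hw2, one_mul]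

/-- the tensor with `ψ` in place `j` and `ρ` elsewhere -/
noncomputable def ph (ρ ψ : α → β → ℂ) (j : ι) (a : ι → α) (b : ι → β) : ℂ :=
  (∏ k ∈ univ.erase j, ρ (a k) (b k)) * ψ (a j) (b j)

theorem deriv_poly (ρ ψ : α → β → ℂ) (A : (ι → α) → (ι → β) → ℂ) (ε : ι → ℂ) :
    HasDerivAt (fun z : ℂ => ∑ a, ∑ b, A a b * ∏ j, (ρ (a j) (b j) + z * ε j * ψ (a j) (b j)))
      (∑ j, ε j * ∑ a, ∑ b, A a b * ph ρ ψ j a b) 0 := by
  have h0 : ∀ (u v c : ℂ), HasDerivAt (fun z : ℂ => u + z * c * v) (c * v) 0 := by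
    intro u v c
    have := (((hasDerivAt_id (0 : ℂ)).mul_const c).mul_const v).const_add u
    simpa using this
  have h1 : ∀ (a : ι → α) (b : ι → β),
      HasDerivAt (fun z : ℂ => ∏ j, (ρ (a j) (b j) + z * ε j * ψ (a j) (b j)))
      (∑ i, (∏ j ∈ univ.erase i, (ρ (a j) (b j) + 0 * ε j * ψ (a j) (b j))) •
        (ε i * ψ (a i) (b i))) 0 :=
    fun a b => HasDerivAt.fun_finsetProd fun i _ => h0 _ _ _
  have h2 := HasDerivAt.fun_sum (u := (univ : Finset (ι → α))) fun a _ =>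
    HasDerivAt.fun_sum (u := (univ : Finset (ι → β))) fun b _ => (h1 a b).const_mul (A a b)
  have h3 : (∑ j, ε j * ∑ a, ∑ b, A a b * ph ρ ψ j a b)
      = ∑ a, ∑ b, A a b * (∑ i, (∏ j ∈ univ.erase i, (ρ (a j) (b j) + 0 * ε j * ψ (a j) (b j))) •
        (ε i * ψ (a i) (b i))) := by
    simp only [zero_mul, add_zero, smul_eq_mul, Finset.mul_sum, ph]
    rw [Finset.sum_comm]
    refine Finset.sum_congr rfl fun a _ => ?_
    rw [Finset.sum_comm]
    refine Finset.sum_congr rfl fun b _ => ?_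
    refine Finset.sum_congr rfl fun j _ => ?_
    ring
  rw [h3]
  exact h2

theorem level_one {ρ ψ : α → β → ℂ} {K t : ℝ} (ht0 : 0 < t) (A : (ι → α) → (ι → β) → ℂ)
    (hA : ∀ z : ι → ℂ, (∀ j, ‖z j‖ ≤ t) →
      ‖∑ a, ∑ b, A a b * ∏ j, (ρ (a j) (b j) + z j * ψ (a j) (b j))‖ ≤ K)
    (ε : ι → ℂ) (hε : ∀ j, ‖ε j‖ ≤ 1) :
    ‖∑ j, ε j * ∑ a, ∑ b, A a b * ph ρ ψ j a b‖ ≤ K / t := by
  have h1 := deriv_poly ρ ψ A ε
  have h2 : Differentiable ℂ
      (fun z : ℂ => ∑ a, ∑ b, A a b * ∏ j, (ρ (a j) (b j) + z * ε j * ψ (a j) (b j))) := by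
    refine Differentiable.fun_sum fun a _ => Differentiable.fun_sum fun b _ =>
      Differentiable.const_mul (Differentiable.fun_finsetProd fun j _ => ?_) _
    exact ((differentiable_id.mul_const _).mul_const _).const_add _
  have h3 := Complex.norm_deriv_le_of_forall_mem_sphere_norm_le (c := 0) ht0
    (C := K) h2.diffContOnCl (fun z hz => hA (fun j => z * ε j) fun j => by
      rw [norm_mul]
      have hz' : ‖z‖ = t := by simpa using hz
      rw [hz']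
      exact mul_le_of_le_one_right ht0.le (hε j))
  rwa [h1.deriv] at h3

end Pool.Agent.W26.CT
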